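import Pool.Agent.PWX.St

/-!
# Killing handles in subgroups of small index: the moves are mapping classes
-/

namespace Pool.Agent.PWX

open Pool.Agent.PW Pool.Agent.PWM Pool.Agent.PWB

variable {g n : ℕ}

/-- The slide of neighbours. -/
def Sl (i j : Fin g) (h : (i : ℕ) < j) : MulAut (F g n) :=
  (rr j * psh i j h (-1) * (rr j)⁻¹) * e1 i (-1)

theorem Sl_mem (i j : Fin g) (h : (i : ℕ) < j) : Sl (n := n) i j h ∈ MCG g n :=
  (MCG g n).mul_mem ((MCG g n).mul_mem ((MCG g n).mul_mem (rr_mem j) (psh_mem h _))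
    ((MCG g n).inv_mem (rr_mem j))) (e1_mem i _)

section

variable {i j : Fin g} (hj : (j : ℕ) = i + 1) (h : (i : ℕ) < j)

include hj

theorem sl_ne : j ≠ i := by
  rintro rfl
  omega

theorem psh_bi : psh (n := n) i j h (-1) (gb i) = (ga j)⁻¹ * gb i * ga i := by
  rw [psh_apply, ph_bi, pw_one hj]
  unfold gg
  group

theorem psh_ai : psh (n := n) i j h (-1) (ga i) = ga i := by
  rw [psh_apply, ph_ai h]

theorem psh_aj : psh (n := n) i j h (-1) (ga j) =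
    ((gg i)⁻¹ * ga j)⁻¹ * ga j * ((gg i)⁻¹ * ga j) := by
  rw [psh_apply, ph_aj, mid_one hj, sw_one hj, pw_one hj]
  group

theorem psh_bj : psh (n := n) i j h (-1) (gb j) = gb j * (ga j)⁻¹ * ((gg i)⁻¹ * ga j) := by
  rw [psh_apply, ph_bj h, mid_one hj, sw_one hj, tw_one hj, pw_one hj]
  group

theorem Sl_ai : Sl (n := n) i j h (ga i) = ga i := by
  have hne := sl_ne hj
  unfold Sl
  simp only [MulAut.mul_apply, e1_a, rri_a' hne.symm, psh_ai hj h, rr_a' hne.symm]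

theorem Sl_bi : Sl (n := n) i j h (gb i) = (ga j * gb j * (ga j)⁻¹)⁻¹ * gb i := by
  have hne := sl_ne hj
  unfold Sl
  simp only [MulAut.mul_apply, e1_b, map_mul, map_zpow, map_inv, rri_a' hne.symm, rri_b' hne.symm,
    psh_ai hj h, psh_bi hj h, rr_a' hne.symm, rr_b' hne.symm, rr_a]
  group

theorem Sl_bj : Sl (n := n) i j h (gb j) = gb j := by
  have hne := sl_ne hj
  unfold Sl
  simp only [MulAut.mul_apply, e1_b' hne, map_mul, map_inv, rri_b, psh_aj hj h, psh_bj hj h, gg,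
    rr_a' hne.symm, rr_b' hne.symm, rr_a, rr_b]
  group

theorem Sl_aj : Sl (n := n) i j h (ga j) =
    (ga j * gb j * (ga j)⁻¹)⁻¹ * (gb i * ga i * (gb i)⁻¹) * (ga j * gb j * (ga j)⁻¹) * ga j := by
  have hne := sl_ne hj
  unfold Sl
  simp only [MulAut.mul_apply, e1_a, map_mul, map_inv, rri_a, psh_aj hj h, psh_bj hj h, gg,
    rr_a' hne.symm, rr_b' hne.symm, rr_a, rr_b]
  group

theorem Sl_a' {l : Fin g} (h1 : l ≠ i) (h2 : l ≠ j) : Sl (n := n) i j h (ga l) = ga l := by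
  unfold Sl
  simp only [MulAut.mul_apply, e1_a, rri_a' h2, psh_apply, ph_a' h2, rr_a' h2]

theorem Sl_b' {l : Fin g} (h1 : l ≠ i) (h2 : l ≠ j) : Sl (n := n) i j h (gb l) = gb l := by
  unfold Sl
  simp only [MulAut.mul_apply, e1_b' h1, rri_b' h2, psh_apply, ph_b' h1 h2, rr_b' h2]

end

variable {Q : Type} [Group Q]

theorem vls_lt (ρ : F g n →* Q) {l : ℕ} (h : l < g) :
    vls ρ l = (ρ (ga ⟨l, h⟩), ρ (gb ⟨l, h⟩)) := by
  unfold vls
  rw [dif_pos h]

theorem vls_ge (ρ : F g n →* Q) {l : ℕ} (h : ¬ l < g) : vls ρ l = (1, 1) := by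
  unfold vls
  rw [dif_neg h]

theorem real_step (ρ : F g n →* Q) {y : ℕ → Q × Q} (h : Step 0 g (vls ρ) y) :
    ∃ φ ∈ MCG g n, vls (ρ.comp (MulEquiv.toMonoidHom φ)) = y := by
  cases h with
  | swap m _ hm =>
    have hm' : m < g := by omega
    have hj : ((⟨m + 1, hm⟩ : Fin g) : ℕ) = ((⟨m, hm'⟩ : Fin g) : ℕ) + 1 := rfl
    refine ⟨(Sw _ _ hj)⁻¹, (MCG g n).inv_mem (Sw_mem hj), ?_⟩
    funext l
    by_cases hl : l < g
    · rw [vls_lt _ hl, vls_lt _ hm, vls_lt _ hm']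
      show (ρ ((Sw _ _ hj)⁻¹ (ga ⟨l, hl⟩)), ρ ((Sw _ _ hj)⁻¹ (gb ⟨l, hl⟩))) = _
      by_cases e1 : l = m + 1
      · subst e1
        rw [Function.update_self, Sw_inv_aj, Sw_inv_bj]
        simp only [cj, dd, dl, cm, map_mul, map_inv, inv_inv]
      · rw [Function.update_of_ne e1]
        by_cases e2 : l = m
        · subst e2
          rw [Function.update_self, Sw_inv_ai, Sw_inv_bi]
        · have h1 : (⟨l, hl⟩ : Fin g) ≠ ⟨m, hm'⟩ := fun h => e2 (Fin.mk.inj_iff.1 h)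
          have h2 : (⟨l, hl⟩ : Fin g) ≠ ⟨m + 1, hm⟩ := fun h => e1 (Fin.mk.inj_iff.1 h)
          rw [Function.update_of_ne e2, inv_of_fix _ (Sw_a' hj h1 h2),
            inv_of_fix _ (Sw_b' hj h1 h2), vls_lt _ hl]
    · rw [vls_ge _ hl, Function.update_of_ne (by omega), Function.update_of_ne (by omega),
        vls_ge _ hl]
  | rot m _ hm =>
    refine ⟨(rr ⟨m, hm⟩)⁻¹, (MCG g n).inv_mem (rr_mem _), ?_⟩
    funext l
    by_cases hl : l < g
    · rw [vls_lt _ hl, vls_lt _ hm]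
      show (ρ ((rr ⟨m, hm⟩)⁻¹ (ga ⟨l, hl⟩)), ρ ((rr ⟨m, hm⟩)⁻¹ (gb ⟨l, hl⟩))) = _
      by_cases e2 : l = m
      · subst e2
        rw [Function.update_self, rri_a, rri_b]
        simp only [rt, map_mul, map_inv]
      · have h1 : (⟨l, hl⟩ : Fin g) ≠ ⟨m, hm⟩ := fun h => e2 (Fin.mk.inj_iff.1 h)
        rw [Function.update_of_ne e2, rri_a' h1, rri_b' h1, vls_lt _ hl]
    · rw [vls_ge _ hl, Function.update_of_ne (by omega), vls_ge _ hl]
  | slide m _ hm =>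
    have hm' : m < g := by omega
    have hj : ((⟨m + 1, hm⟩ : Fin g) : ℕ) = ((⟨m, hm'⟩ : Fin g) : ℕ) + 1 := rfl
    have hlt : ((⟨m, hm'⟩ : Fin g) : ℕ) < ((⟨m + 1, hm⟩ : Fin g) : ℕ) := by
      rw [hj]
      exact Nat.lt_succ_self _
    refine ⟨Sl _ _ hlt, Sl_mem _ _ hlt, ?_⟩
    funext l
    by_cases hl : l < g
    · rw [vls_lt _ hl, vls_lt _ hm, vls_lt _ hm']
      show (ρ (Sl _ _ hlt (ga ⟨l, hl⟩)), ρ (Sl _ _ hlt (gb ⟨l, hl⟩))) = _
      by_cases e1 : l = m + 1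
      · subst e1
        rw [Function.update_self, Sl_aj hj, Sl_bj hj]
        simp only [tv, map_mul, map_inv]
      · rw [Function.update_of_ne e1]
        by_cases e2 : l = m
        · subst e2
          rw [Function.update_self, Sl_ai hj, Sl_bi hj]
          simp only [tv, map_mul, map_inv]
        · have h1 : (⟨l, hl⟩ : Fin g) ≠ ⟨m, hm'⟩ := fun h => e2 (Fin.mk.inj_iff.1 h)
          have h2 : (⟨l, hl⟩ : Fin g) ≠ ⟨m + 1, hm⟩ := fun h => e1 (Fin.mk.inj_iff.1 h)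
          rw [Function.update_of_ne e2, Sl_a' hj _ h1 h2, Sl_b' hj _ h1 h2, vls_lt _ hl]
    · rw [vls_ge _ hl, Function.update_of_ne (by omega), Function.update_of_ne (by omega),
        vls_ge _ hl]

theorem st_Real : St_Real := by
  intro Q _ g n ρ y h
  induction h with
  | refl =>
    refine ⟨1, (MCG g n).one_mem, ?_⟩
    rfl
  | tail _ h2 ih =>
    obtain ⟨φ, hφ, h3⟩ := ih
    rw [← h3] at h2
    obtain ⟨ψ, hψ, h4⟩ := real_step _ h2
    exact ⟨φ * ψ, (MCG g n).mul_mem hφ hψ, h4⟩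

end Pool.Agent.PWX
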