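import Pool.Agent.PWX.Basic

/-!
# Killing handles in subgroups of small index: statements

`ρ : F g n →* Q`; `vls ρ l` is the pair of the values of `ρ` on the handle `l`.
-/

namespace Pool.Agent.PWX

open Pool.Agent.PW Pool.Agent.PWM Pool.Agent.PWB
open scoped Pointwise

/-- (Real) The moves are realised by mapping classes.
Proof.  Induction on `Go` (tail): it suffices to treat one `Step 0 g` from `vls ρ'`.
swap at `l`: `φ = (Sw i j h)⁻¹` with `i = ⟨l, _⟩`, `j = ⟨l + 1, _⟩` (PWM/Swp: `Sw_inv_ai`, `Sw_inv_bi`,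
`Sw_inv_aj`, `Sw_inv_bj`, `Sw_mem`; for the other letters use `inv_of_fix` and `Sw_a'`, `Sw_b'`).
rot at `l`: `φ = (rr i)⁻¹` (PWM/Rot: `rri_a`, `rri_b`, `rri_a'`, `rri_b'`, `rr_mem`).
slide at `l`: `φ = (rr j * psh i j h (-1) * (rr j)⁻¹) * e1 i (-1)`, `i = l`, `j = l + 1`.  Since `mid g n i j = 1`
(`mid_one`), with `s = ga j`, `t = gb j` one finds `psh i j h (-1)` : `gb i ↦ s⁻¹ * gb i * ga i`,
`ga j ↦ pw⁻¹ * s * pw`, `gb j ↦ t * s⁻¹ * pw` where `pw = gb i * (ga i)⁻¹ * (gb i)⁻¹ * s`
(`pw_one`, `ph_bi`, `ph_aj`, `ph_bj`, `ph_ai`, `ph_a'`, `ph_b'`), hence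
`φ (ga i) = ga i`, `φ (gb i) = (ga j * gb j * (ga j)⁻¹)⁻¹ * gb i`, `φ (gb j) = gb j`,
`φ (ga j) = τ⁻¹ * (gb i * ga i * (gb i)⁻¹) * τ * ga j` with `τ = ga j * gb j * (ga j)⁻¹`, all other letters
fixed (`rr_a`, `rr_b`, `rri_a`, `rri_b`, `e1_a`, `e1_b`; then `group`).  The places `l ≥ g` of `vls` are
`(1, 1)` and are not changed. -/
def St_Real : Prop := ∀ {Q : Type} [Group Q] {g n : ℕ} (ρ : F g n →* Q) {y : ℕ → Q × Q},
  Go 0 g (vls ρ) y → ∃ φ ∈ MCG g n, vls (ρ.comp (MulEquiv.toMonoidHom φ)) = y

/-- (Grow) Either the second letter of the handle `m` can be moved into the stabiliser of `ω`, or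
the handles which were not used preserve a set `R` of points which does not contain `ω`.
Proof.  Call `(R, u)` good, `R : Finset Ω`, `R ⊆ O` (`O` the orbit of `ω` under `P`), `u < k`, if there is
`τ : ℕ → Q × Q` with, for all `r ∈ R`, some `y` with `Go m (m + k) x y`, `(y m).1 = (x m).1`,
`(y m).2 • ω = r` and `y l = τ l` for `m < l ≤ m + u`.  `({(x m).2 • ω}, k - 1)` is good with `τ = x`.  Claim, by
induction on `u`: if `(R, u)` is good, `R ≠ ∅` and `k ≤ R.card + u`, the conclusion holds.  If `ω ∈ R`: first alternative.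
If all `τ l`, `m < l ≤ m + u`, preserve `R` (both letters): second alternative (any `r ∈ R`).  Otherwise
`u ≥ 1` and for some `i`, `m < i ≤ m + u`, some letter `q` of `τ i` and some `r₀ ∈ R` one has
`q • r₀ ∉ R` (if `q = (τ i).2`) respectively `q⁻¹ • r₀ ∉ R` (if `q = (τ i).1`; a permutation which maps
the finite set `R` to itself has an inverse which does so too).  For each `r ∈ R` with its `y`: move the
handle `i` to the place `m + 1` (`go_left y (m + 1) (i - m - 1)`), rotate it once (if `q` is the first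
letter) or twice (if `q` is the second letter), so that `tv` of it is `q` respectively `q⁻¹`
(`tv_rt`, `tv_rt2`), for `r = r₀` in addition, to get the new point, slide at `m`, and finally move the
handle `m + 1` to the place `m + u` (`go_right _ (m + 1) (u - 1)`): the handles at the places
`m < l ≤ m + u - 1` are the same for all `r` (they are given by `lef τ`), and `(R ∪ {new point}, u - 1)` is
good.  The new point lies in `O` because all the letters at the places of `[m, m + k)` stay in `P`
(`Go.inn`).  Only the letters at places `> m` and, in the slide, the second letter of the handle `m` are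
changed. -/
def St_Grow : Prop := ∀ {Q : Type} [Group Q] {Ω : Type} [MulAction Q Ω] [Finite Ω] (ω : Ω)
  (P : Subgroup Q) (m k : ℕ) (x : ℕ → Q × Q), 0 < k →
  (∀ l, m ≤ l → l < m + k → In P (x l)) →
  (∃ y, Go m (m + k) x y ∧ (y m).1 = (x m).1 ∧ (y m).2 • ω = ω) ∨
  ∃ (R : Set Ω) (u : ℕ) (y : ℕ → Q × Q), u < k ∧ Go m (m + k) x y ∧
    R ⊆ MulAction.orbit P ω ∧ ω ∉ R ∧ k ≤ R.ncard + u ∧
    ∀ l, m < l → l ≤ m + u → In (MulAction.stabilizer Q R) (y l)

/-- (Desc) The descent: an orbit of at most `d` points costs `d - 1` handles.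
Proof.  Strong induction on `k`.  `k = 0`: `y = x`.  Let `k > 0`.  Apply `St_Grow`.
In the second alternative move the handle `m` of `y` to the right to the place `m + u`
(`go_right y m u`, inside `[m, m + u + 1) ⊆ [m, m + k)`): the places `m ≤ l < m + u` lie in
`P ⊓ stabilizer R` (`Go.inn` for `P`).  The orbit of `ω` under this subgroup is contained in
`orbit P ω \ R` (if `q • ω ∈ R` then `ω ∈ R`), so it has at most `d - R.ncard ≤ d - (k - u)` points
(`Set.ncard_diff`).  Induction with `(m, u, d - (k - u))`; the orbit contains `ω`, so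
`k - u < d` and `m + k - (d - 1) ≤ m + u - (d - (k - u) - 1)`.
In the first alternative rotate the handle `m` (`rt`): now its first letter is in the stabiliser of
`ω`.  Apply `St_Grow` again; the second alternative as before; in the first alternative both letters of
the handle `m` are in the stabiliser: induction with `(m + 1, k - 1, d)`. -/
def St_Desc : Prop := ∀ {Q : Type} [Group Q] {Ω : Type} [MulAction Q Ω] [Finite Ω] (ω : Ω)
  (k m d : ℕ) (P : Subgroup Q) (x : ℕ → Q × Q),
  (∀ l, l < m → In (MulAction.stabilizer Q ω) (x l)) →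
  (∀ l, m ≤ l → l < m + k → In P (x l)) → (MulAction.orbit P ω).ncard ≤ d →
  ∃ y, Go 0 (m + k) x y ∧ ∀ l, l < m + k - (d - 1) → In (MulAction.stabilizer Q ω) (y l)

/-- (Ind) A subgroup of index `r + 1` costs `r` handles.
Proof.  `St_Desc` with `Ω = Q ⧸ M`, `ω = 1` (stabiliser `M`), `m = 0`, `k = h + r`, `P = N`, `d = r + 1`: the orbit of
`1` under `N` has `M.relIndex N` points (orbit-stabiliser; the stabiliser of `1` in `N` is
`M.subgroupOf N`).  Then `St_Real` (`Go 0 k` is contained in `Go 0 g`). -/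
def St_Ind : Prop := ∀ {Q : Type} [Group Q] [Finite Q] {g n h r : ℕ}, h + r ≤ g →
  ∀ (ρ : F g n →* Q) (N M : Subgroup Q), M.relIndex N = r + 1 → Inv (h + r) N ρ →
  ∃ φ ∈ MCG g n, Inv h M (ρ.comp (MulEquiv.toMonoidHom φ))

/-- (Perm) The normal core of a subgroup of index `d` costs at most `d (d - 1) / 2`.
Proof.  Let `p : Fin d ≃ G ⧸ H` be an enumeration and `M i` the pointwise stabiliser of the points `p j`,
`j < i` (`i ≤ d`): `M 0 = ⊤`, `M d = H.normalCore` (`Subgroup.normalCore_eq_ker`), and `M (i + 1)` is the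
stabiliser of `p i` in `M i`, so `(M (i + 1)).relIndex (M i)` is the number of points of the orbit of
`p i` under `M i`, which contains none of the `i` points `p j`, `j < i` (they are fixed): it is between
`1` and `d - i`.  So the cost is at most the sum of the `d - i - 1`, `i < d`, which is `d (d - 1) / 2`. -/
def St_Perm : Prop := ∀ {G : Type} [Group G] [Finite G] (H : Subgroup G),
  ∃ t, 2 * t ≤ H.index * (H.index - 1) ∧ Cost2 G t H.normalCore

end Pool.Agent.PWX
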