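import Pool.Agent.PWB.KSt
import Pool.Agent.PWM.Swp

/-!
# Killing handles in subgroups of small index: definitions

A system is a sequence `x : ℕ → Q × Q` of pairs (the values of the handles).  `Step lo hi` is one
move inside the places `lo ≤ l < hi`, `Go lo hi` its reflexive transitive closure.
-/

namespace Pool.Agent.PWX

open Pool.Agent.PW Pool.Agent.PWM Pool.Agent.PWB

variable {Q : Type} [Group Q]

/-- The commutator of a pair. -/
def dd (p : Q × Q) : Q := p.1 * p.2 * p.1⁻¹ * p.2⁻¹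

/-- Conjugation of a pair. -/
def cj (q : Q) (p : Q × Q) : Q × Q := (q * p.1 * q⁻¹, q * p.2 * q⁻¹)

/-- The rotation of a pair. -/
def rt (p : Q × Q) : Q × Q := (p.2⁻¹, p.2 * p.1 * p.2⁻¹)

/-- The value about which we slide. -/
def tv (p : Q × Q) : Q := p.1 * p.2 * p.1⁻¹

/-- One move inside the places `lo ≤ l < hi`. -/
inductive Step (lo hi : ℕ) : (ℕ → Q × Q) → (ℕ → Q × Q) → Prop
  /-- exchange of two neighbours; the right one moves to the left unchanged -/
  | swap (x : ℕ → Q × Q) (l : ℕ) : lo ≤ l → l + 1 < hi →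
      Step lo hi x (Function.update (Function.update x l (x (l + 1))) (l + 1)
        (cj (dd (x (l + 1)))⁻¹ (x l)))
  /-- rotation of one handle -/
  | rot (x : ℕ → Q × Q) (l : ℕ) : lo ≤ l → l < hi →
      Step lo hi x (Function.update x l (rt (x l)))
  /-- slide of a foot of the handle `l` over its right neighbour -/
  | slide (x : ℕ → Q × Q) (l : ℕ) : lo ≤ l → l + 1 < hi →
      Step lo hi x (Function.update (Function.update x l ((x l).1, (tv (x (l + 1)))⁻¹ * (x l).2))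
        (l + 1) ((tv (x (l + 1)))⁻¹ * ((x l).2 * (x l).1 * (x l).2⁻¹) * tv (x (l + 1)) *
          (x (l + 1)).1, (x (l + 1)).2))

/-- Finitely many moves. -/
def Go (lo hi : ℕ) : (ℕ → Q × Q) → (ℕ → Q × Q) → Prop := Relation.ReflTransGen (Step lo hi)

/-- The values of the handles. -/
def vls {g n : ℕ} (ρ : F g n →* Q) (l : ℕ) : Q × Q :=
  if h : l < g then (ρ (ga ⟨l, h⟩), ρ (gb ⟨l, h⟩)) else (1, 1)

/-- Both entries lie in the subgroup. -/
def In (H : Subgroup Q) (p : Q × Q) : Prop := p.1 ∈ H ∧ p.2 ∈ H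

/-- The subgroup `N` of `G` can be reached from `⊤` with cost `s`.  Four kinds of steps from `N` to
a smaller subgroup `M`: `N/M` cyclic (cost 1), `N/M` an abelian chief factor of `G` (cost 1), `N/M`
central in `G/M` and consisting of non-generators of `G/M` (no cost), and any subgroup `M` of index
`r + 1` in `N` (cost `r`). -/
inductive Cost2 (G : Type*) [Group G] : ℕ → Subgroup G → Prop
  | top : Cost2 G 0 ⊤
  | cyclic {s : ℕ} {N M : Subgroup G} : Cost2 G s N → M ≤ N →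
      (∀ x ∈ N, ∀ y ∈ M, x * y * x⁻¹ ∈ M) → (∃ c ∈ N, ∀ x ∈ N, ∃ k : ℤ, (c ^ k)⁻¹ * x ∈ M) →
      Cost2 G (s + 1) M
  | chief {s : ℕ} {N M : Subgroup G} : Cost2 G s N → N.Normal → M.Normal → M ≤ N →
      (∀ x ∈ N, ∀ y ∈ N, x * y * x⁻¹ * y⁻¹ ∈ M) →
      (∀ L : Subgroup G, L.Normal → M ≤ L → L ≤ N → L = M ∨ L = N) → Cost2 G (s + 1) M
  | frattini {s : ℕ} {N M : Subgroup G} : Cost2 G s N → N.Normal → M.Normal → M ≤ N →
      (∀ x ∈ N, ∀ y, x * y * x⁻¹ * y⁻¹ ∈ M) → (∀ H : Subgroup G, H ⊔ N = ⊤ → H ⊔ M = ⊤) →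
      Cost2 G s M
  | index {s r : ℕ} {N M : Subgroup G} : Cost2 G s N → M ≤ N → M.relIndex N = r + 1 →
      Cost2 G (s + r) M

end Pool.Agent.PWX
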