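import Pool.Agent.PWX.Desc

/-!
# Killing handles in subgroups of small index: the index step
-/

namespace Pool.Agent.PWX

open Pool.Agent.PW Pool.Agent.PWM Pool.Agent.PWB
open scoped Pointwise

theorem st_Ind (real : St_Real) : St_Ind := by
  intro Q _ _ g n h r hg ρ N M hr hI
  have hs : MulAction.stabilizer Q ((1 : Q) : Q ⧸ M) = M := MulAction.stabilizer_quotient M
  have hd : (MulAction.orbit N ((1 : Q) : Q ⧸ M)).ncard ≤ r + 1 := by
    rw [← MulAction.index_stabilizer, ← hr]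
    have e : MulAction.stabilizer N ((1 : Q) : Q ⧸ M) = M.subgroupOf N := by
      ext ⟨x, hx⟩
      rw [MulAction.mem_stabilizer_iff, Subgroup.mem_subgroupOf]
      show x • ((1 : Q) : Q ⧸ M) = ((1 : Q) : Q ⧸ M) ↔ x ∈ M
      rw [← MulAction.mem_stabilizer_iff, hs]
    rw [e]
    exact le_rfl
  obtain ⟨y, h1, h2⟩ := st_Desc ((1 : Q) : Q ⧸ M) (h + r) 0 (r + 1) N (vls ρ)
    (fun l hl => absurd hl (Nat.not_lt_zero _))
    (fun l _ hl => by
      have hlg : l < g := by omega
      unfold vls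
      rw [dif_pos hlg]
      exact hI ⟨l, hlg⟩ (by simpa using hl)) hd
  obtain ⟨φ, hφ, h3⟩ := real ρ (h1.mono (lo' := 0) (hi' := g) le_rfl (by omega))
  refine ⟨φ, hφ, fun i hi => ?_⟩
  have h4 := h2 i (by omega)
  rw [hs, ← h3] at h4
  unfold vls at h4
  rw [dif_pos i.2] at h4
  exact h4

end Pool.Agent.PWX
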