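import Pool.Agent.PWX.Defs

/-!
# Killing handles in subgroups of small index: basic properties of the moves
-/

namespace Pool.Agent.PWX

open Pool.Agent.PW Pool.Agent.PWM Pool.Agent.PWB

variable {Q : Type} [Group Q]

theorem In.cj {H : Subgroup Q} {p : Q × Q} {q : Q} (hp : In H p) (hq : q ∈ H) : In H (cj q p) :=
  ⟨H.mul_mem (H.mul_mem hq hp.1) (H.inv_mem hq), H.mul_mem (H.mul_mem hq hp.2) (H.inv_mem hq)⟩

theorem In.dd {H : Subgroup Q} {p : Q × Q} (hp : In H p) : dd p ∈ H :=
  H.mul_mem (H.mul_mem (H.mul_mem hp.1 hp.2) (H.inv_mem hp.1)) (H.inv_mem hp.2)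

theorem In.rt {H : Subgroup Q} {p : Q × Q} (hp : In H p) : In H (rt p) :=
  ⟨H.inv_mem hp.2, H.mul_mem (H.mul_mem hp.2 hp.1) (H.inv_mem hp.2)⟩

theorem In.tv {H : Subgroup Q} {p : Q × Q} (hp : In H p) : tv p ∈ H :=
  H.mul_mem (H.mul_mem hp.1 hp.2) (H.inv_mem hp.1)

theorem In.mono {H K : Subgroup Q} (h : H ≤ K) {p : Q × Q} (hp : In H p) : In K p :=
  ⟨h hp.1, h hp.2⟩

theorem tv_rt (p : Q × Q) : tv (rt p) = p.1 := by
  simp only [tv, rt]
  group

theorem tv_rt2 (p : Q × Q) : tv (rt (rt p)) = p.2⁻¹ := by
  rw [tv_rt]
  rfl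

section

variable {lo hi : ℕ} {x y z : ℕ → Q × Q}

theorem Go.refl (x : ℕ → Q × Q) : Go lo hi x x := Relation.ReflTransGen.refl

theorem Go.trans (h1 : Go lo hi x y) (h2 : Go lo hi y z) : Go lo hi x z :=
  Relation.ReflTransGen.trans h1 h2

theorem Go.single (h : Step lo hi x y) : Go lo hi x y := Relation.ReflTransGen.single h

theorem Step.mono {lo' hi' : ℕ} (h1 : lo' ≤ lo) (h2 : hi ≤ hi') (h : Step lo hi x y) :
    Step lo' hi' x y := by
  cases h with
  | swap l h3 h4 => exact Step.swap _ l (by omega) (by omega)
  | rot l h3 h4 => exact Step.rot _ l (by omega) (by omega)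
  | slide l h3 h4 => exact Step.slide _ l (by omega) (by omega)

/-- More places allow more moves. -/
theorem Go.mono {lo' hi' : ℕ} (h1 : lo' ≤ lo) (h2 : hi ≤ hi') (h : Go lo hi x y) :
    Go lo' hi' x y :=
  Relation.ReflTransGen.mono (fun _ _ h3 => Step.mono h1 h2 h3) _ _ h

theorem Step.out (h : Step lo hi x y) {l : ℕ} (hl : l < lo ∨ hi ≤ l) : y l = x l := by
  cases h with
  | swap m h3 h4 =>
    rw [Function.update_of_ne (by omega), Function.update_of_ne (by omega)]
  | rot m h3 h4 => rw [Function.update_of_ne (by omega)]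
  | slide m h3 h4 =>
    rw [Function.update_of_ne (by omega), Function.update_of_ne (by omega)]

/-- Nothing changes outside. -/
theorem Go.out (h : Go lo hi x y) {l : ℕ} (hl : l < lo ∨ hi ≤ l) : y l = x l := by
  induction h with
  | refl => rfl
  | tail _ h2 ih => rw [h2.out hl, ih]

theorem Step.inn {H : Subgroup Q} (h : Step lo hi x y) (hx : ∀ l, lo ≤ l → l < hi → In H (x l)) :
    ∀ l, lo ≤ l → l < hi → In H (y l) := by
  cases h with
  | swap m h3 h4 =>
    intro l h5 h6
    by_cases e1 : l = m + 1
    · subst e1
      rw [Function.update_self]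
      exact (hx m h3 (by omega)).cj (H.inv_mem (hx (m + 1) (by omega) h4).dd)
    · rw [Function.update_of_ne e1]
      by_cases e2 : l = m
      · subst e2
        rw [Function.update_self]
        exact hx (l + 1) (by omega) h4
      · rw [Function.update_of_ne e2]
        exact hx l h5 h6
  | rot m h3 h4 =>
    intro l h5 h6
    by_cases e2 : l = m
    · subst e2
      rw [Function.update_self]
      exact (hx l h5 h6).rt
    · rw [Function.update_of_ne e2]
      exact hx l h5 h6
  | slide m h3 h4 =>
    intro l h5 h6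
    have h7 := hx m h3 (by omega)
    have h8 := hx (m + 1) (by omega) h4
    by_cases e1 : l = m + 1
    · subst e1
      rw [Function.update_self]
      exact ⟨H.mul_mem (H.mul_mem (H.mul_mem (H.inv_mem h8.tv)
        (H.mul_mem (H.mul_mem h7.2 h7.1) (H.inv_mem h7.2))) h8.tv) h8.1, h8.2⟩
    · rw [Function.update_of_ne e1]
      by_cases e2 : l = m
      · subst e2
        rw [Function.update_self]
        exact ⟨h7.1, H.mul_mem (H.inv_mem h8.tv) h7.2⟩
      · rw [Function.update_of_ne e2]
        exact hx l h5 h6

/-- The handles stay in a subgroup. -/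
theorem Go.inn {H : Subgroup Q} (h : Go lo hi x y) (hx : ∀ l, lo ≤ l → l < hi → In H (x l)) :
    ∀ l, lo ≤ l → l < hi → In H (y l) := by
  induction h with
  | refl => exact hx
  | tail _ h2 ih => exact h2.inn ih

end

/-- The handle `j` moves to the left to the place `i` and is not changed. -/
def lef (x : ℕ → Q × Q) (i j : ℕ) : ℕ → Q × Q := fun l =>
  if l = i then x j else if i < l ∧ l ≤ j then cj (dd (x j))⁻¹ (x (l - 1)) else x l

theorem go_left (x : ℕ → Q × Q) (i k : ℕ) : Go i (i + k + 1) x (lef x i (i + k)) := by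
  induction k generalizing i with
  | zero =>
    have e : lef x i (i + 0) = x := by
      funext l
      unfold lef
      by_cases h : l = i
      · rw [if_pos h, h, Nat.add_zero]
      · rw [if_neg h, if_neg (by omega)]
    rw [e]
    exact Go.refl x
  | succ k ih =>
    have h1 := (ih (i + 1)).mono (lo' := i) (hi' := i + (k + 1) + 1) (by omega) (by omega)
    refine h1.trans (Go.single ?_)
    have h2 := Step.swap (lo := i) (hi := i + (k + 1) + 1) (lef x (i + 1) (i + 1 + k)) i le_rfl
      (by omega)
    have e : i + (k + 1) = i + 1 + k := by omega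
    have e2 : Function.update (Function.update (lef x (i + 1) (i + 1 + k)) i
        (lef x (i + 1) (i + 1 + k) (i + 1))) (i + 1)
        (cj (dd (lef x (i + 1) (i + 1 + k) (i + 1)))⁻¹ (lef x (i + 1) (i + 1 + k) i)) =
        lef x i (i + (k + 1)) := by
      rw [e]
      funext l
      have h3 : lef x (i + 1) (i + 1 + k) (i + 1) = x (i + 1 + k) := by
        unfold lef
        rw [if_pos rfl]
      have h4 : lef x (i + 1) (i + 1 + k) i = x i := by
        unfold lef
        rw [if_neg (by omega), if_neg (by omega)]
      rw [h3, h4]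
      by_cases e1 : l = i + 1
      · subst e1
        rw [Function.update_self]
        unfold lef
        rw [if_neg (by omega), if_pos (by omega), Nat.add_sub_cancel]
      · rw [Function.update_of_ne e1]
        by_cases e2 : l = i
        · subst e2
          rw [Function.update_self]
          unfold lef
          rw [if_pos rfl]
        · rw [Function.update_of_ne e2]
          unfold lef
          rw [if_neg e1, if_neg e2]
          by_cases h5 : i < l ∧ l ≤ i + 1 + k
          · rw [if_pos (by omega), if_pos h5]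
          · rw [if_neg (by omega), if_neg h5]
    rw [e2] at h2
    exact h2

/-- The handle `i` moves to the right to the place `i + k`; the handles which it passes are not
changed. -/
theorem go_right (x : ℕ → Q × Q) (i k : ℕ) : ∃ y, Go i (i + k + 1) x y ∧
    ∀ l, i ≤ l → l < i + k → y l = x (l + 1) := by
  induction k with
  | zero => exact ⟨x, Go.refl x, fun l h1 h2 => by omega⟩
  | succ k ih =>
    obtain ⟨y, h1, h2⟩ := ih
    have h3 := h1.mono (lo' := i) (hi' := i + (k + 1) + 1) le_rfl (by omega)
    have h4 := Step.swap (lo := i) (hi := i + (k + 1) + 1) y (i + k) (by omega) (by omega)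
    refine ⟨_, h3.trans (Go.single h4), fun l h5 h6 => ?_⟩
    rw [Function.update_of_ne (by omega)]
    by_cases e : l = i + k
    · subst e
      rw [Function.update_self]
      exact h1.out (Or.inr (by omega))
    · rw [Function.update_of_ne e]
      exact h2 l h5 (by omega)

end Pool.Agent.PWX
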