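import Pool.Agent.PWX.Grow

/-!
# Killing handles in subgroups of small index: the descent
-/

namespace Pool.Agent.PWX

open Pool.Agent.PW Pool.Agent.PWM Pool.Agent.PWB
open scoped Pointwise

variable {Q : Type} [Group Q] {Ω : Type} [MulAction Q Ω] [Finite Ω]

/-- The orbit under a subgroup which preserves a set of points which does not contain `ω`. -/
theorem orbit_stab {ω : Ω} {P : Subgroup Q} {R : Set Ω} (hR : R ⊆ MulAction.orbit P ω)
    (hω : ω ∉ R) {d : ℕ} (hd : (MulAction.orbit P ω).ncard ≤ d) :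
    (MulAction.orbit (P ⊓ MulAction.stabilizer Q R : Subgroup Q) ω).ncard ≤ d - R.ncard := by
  have h1 : MulAction.orbit (P ⊓ MulAction.stabilizer Q R : Subgroup Q) ω ⊆
      MulAction.orbit P ω \ R := by
    rintro _ ⟨⟨q, hq⟩, rfl⟩
    refine ⟨⟨⟨q, hq.1⟩, rfl⟩, fun h2 => hω ?_⟩
    have h3 : q⁻¹ ∈ MulAction.stabilizer Q R := Subgroup.inv_mem _ hq.2
    rw [MulAction.mem_stabilizer_iff] at h3
    have h2' : q • ω ∈ R := h2
    have h4 : q⁻¹ • (q • ω) ∈ q⁻¹ • R := Set.smul_mem_smul_set h2'
    rwa [h3, inv_smul_smul] at h4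
  calc _ ≤ (MulAction.orbit P ω \ R).ncard := Set.ncard_le_ncard h1 (Set.toFinite _)
    _ = (MulAction.orbit P ω).ncard - R.ncard := Set.ncard_diff hR (Set.toFinite _)
    _ ≤ d - R.ncard := Nat.sub_le_sub_right hd _

theorem ncard_lt {ω : Ω} {P : Subgroup Q} {R : Set Ω} (hR : R ⊆ MulAction.orbit P ω)
    (hω : ω ∉ R) {d : ℕ} (hd : (MulAction.orbit P ω).ncard ≤ d) : R.ncard < d := by
  have h1 : (insert ω R).ncard ≤ (MulAction.orbit P ω).ncard := by
    apply Set.ncard_le_ncard _ (Set.toFinite _)
    apply Set.insert_subset (MulAction.mem_orbit_self ω) hR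
  rw [Set.ncard_insert_of_notMem hω (Set.toFinite _)] at h1
  omega

theorem st_Desc : St_Desc := by
  intro Q _ Ω _ _ ω k
  induction k using Nat.strong_induction_on with
  | _ k ih =>
    intro m d P x hm hP hd
    by_cases hk : k = 0
    · subst hk
      refine ⟨x, Go.refl x, fun l hl => hm l (by omega)⟩
    -- the second alternative of the growth
    have stuck : ∀ x' : ℕ → Q × Q, (∀ l, l < m → In (MulAction.stabilizer Q ω) (x' l)) →
        (∀ l, m ≤ l → l < m + k → In P (x' l)) →
        ∀ (R : Set Ω) (u : ℕ) (y : ℕ → Q × Q), u < k → Go m (m + k) x' y →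
          R ⊆ MulAction.orbit P ω → ω ∉ R → k ≤ R.ncard + u →
          (∀ l, m < l → l ≤ m + u → In (MulAction.stabilizer Q R) (y l)) →
          ∃ z, Go 0 (m + k) x' z ∧
            ∀ l, l < m + k - (d - 1) → In (MulAction.stabilizer Q ω) (z l) := by
      intro x' hm' hP' R u y hu h1 h2 h3 h4 h5
      have h6 := h1.inn hP'
      obtain ⟨z, g1, g2⟩ := go_right y m u
      have h7 := ncard_lt h2 h3 hd
      have h8 := orbit_stab h2 h3 hd
      obtain ⟨w, f1, f2⟩ := ih u hu m (d - (k - u)) (P ⊓ MulAction.stabilizer Q R) z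
        (fun l hl => by
          rw [g1.out (Or.inl hl), h1.out (Or.inl hl)]
          exact hm' l hl)
        (fun l hl1 hl2 => by
          rw [g2 l hl1 hl2]
          have h9 := h6 (l + 1) (by omega) (by omega)
          have h10 := h5 (l + 1) (by omega) (by omega)
          exact ⟨⟨h9.1, h10.1⟩, ⟨h9.2, h10.2⟩⟩)
        (h8.trans (by omega))
      refine ⟨w, ((h1.mono (by omega) le_rfl).trans (g1.mono (by omega) (by omega))).trans
        (f1.mono le_rfl (by omega)), fun l hl => f2 l (by omega)⟩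
    rcases st_Grow ω P m k x (by omega) hP with ⟨y, h1, h2, h3⟩ | ⟨R, u, y, h1, h2, h3, h4, h5, h6⟩
    · -- rotate
      have hy := h1.inn hP
      have g0 := Step.rot (lo := m) (hi := m + k) y m le_rfl (by omega)
      obtain ⟨y', hy'⟩ : ∃ y', y' = Function.update y m (rt (y m)) := ⟨_, rfl⟩
      rw [← hy'] at g0
      have g1 : Go m (m + k) y y' := Go.single g0
      have hym : y' m = rt (y m) := by
        rw [hy', Function.update_self]
      have hP2 := g1.inn hy
      have hm2 : ∀ l, l < m → In (MulAction.stabilizer Q ω) (y' l) := fun l hl => by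
        rw [g1.out (Or.inl hl), h1.out (Or.inl hl)]
        exact hm l hl
      have ha : (y' m).1 ∈ MulAction.stabilizer Q ω := by
        rw [hym]
        exact Subgroup.inv_mem _ (MulAction.mem_stabilizer_iff.2 h3)
      have hgo : Go 0 (m + k) x y' :=
        (h1.mono (by omega) le_rfl).trans (g1.mono (by omega) le_rfl)
      rcases st_Grow ω P m k y' (by omega) hP2 with
        ⟨z, f1, f2, f3⟩ | ⟨R, u, z, f1, f2, f3, f4, f5, f6⟩
      · have hz := f1.inn hP2
        obtain ⟨w, e1, e2⟩ := ih (k - 1) (by omega) (m + 1) d P z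
          (fun l hl => by
            by_cases e : l = m
            · subst e
              exact ⟨by rw [f2]; exact ha, MulAction.mem_stabilizer_iff.2 f3⟩
            · rw [f1.out (Or.inl (by omega))]
              exact hm2 l (by omega))
          (fun l hl1 hl2 => hz l (by omega) (by omega)) hd
        refine ⟨w, (hgo.trans (f1.mono (by omega) le_rfl)).trans (e1.mono le_rfl (by omega)),
          fun l hl => e2 l (by omega)⟩
      · obtain ⟨w, e1, e2⟩ := stuck y' hm2 hP2 R u z f1 f2 f3 f4 f5 f6
        exact ⟨w, hgo.trans e1, e2⟩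
    · exact stuck x hm hP R u y h1 h2 h3 h4 h5 h6

end Pool.Agent.PWX
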