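import Pool.Agent.PWX.St

/-!
# Killing handles in subgroups of small index: growth
-/

namespace Pool.Agent.PWX

open Pool.Agent.PW Pool.Agent.PWM Pool.Agent.PWB
open scoped Pointwise

variable {Q : Type} [Group Q]

/-! ### The three operations -/

/-- Move the handle `i` to the place `m + 1` and rotate it once or twice. -/
theorem op_zero {m k u i : ℕ} (hmi : m < i) (hiu : i ≤ m + u) (hu : u < k) {f : Q × Q → Q × Q}
    (hf : f = rt ∨ f = fun p => rt (rt p)) (y : ℕ → Q × Q) :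
    ∃ z, Go m (m + k) y z ∧ z m = y m ∧ z (m + 1) = f (y i) ∧
      ∀ l, m + 1 < l → z l = lef y (m + 1) i l := by
  have h1 := (go_left y (m + 1) (i - m - 1)).mono (lo' := m) (hi' := m + k) (by omega) (by omega)
  have e : m + 1 + (i - m - 1) = i := by omega
  rw [e] at h1
  have e0 : lef y (m + 1) i m = y m := by
    unfold lef
    rw [if_neg (by omega), if_neg (by omega)]
  have e1 : lef y (m + 1) i (m + 1) = y i := by
    unfold lef
    rw [if_pos rfl]
  have h2 := Step.rot (lo := m) (hi := m + k) (lef y (m + 1) i) (m + 1) (by omega) (by omega)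
  rw [e1] at h2
  rcases hf with rfl | rfl
  · refine ⟨_, h1.trans (Go.single h2), ?_, ?_, fun l hl => ?_⟩
    · rw [Function.update_of_ne (by omega), e0]
    · rw [Function.update_self]
    · rw [Function.update_of_ne (by omega)]
  · have h3 := Step.rot (lo := m) (hi := m + k)
      (Function.update (lef y (m + 1) i) (m + 1) (rt (y i))) (m + 1) (by omega) (by omega)
    refine ⟨_, (h1.trans (Go.single h2)).trans (Go.single h3), ?_, ?_, fun l hl => ?_⟩
    · rw [Function.update_of_ne (by omega), Function.update_of_ne (by omega), e0]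
    · rw [Function.update_self, Function.update_self]
    · rw [Function.update_of_ne (by omega), Function.update_of_ne (by omega)]

/-- Slide the handle `m`. -/
theorem op_slide {m k : ℕ} (hk : m + 1 < m + k) (y : ℕ → Q × Q) :
    ∃ z, Go m (m + k) y z ∧ z m = ((y m).1, (tv (y (m + 1)))⁻¹ * (y m).2) ∧
      ∀ l, m + 1 < l → z l = y l := by
  refine ⟨_, Go.single (Step.slide y m le_rfl hk), ?_, fun l hl => ?_⟩
  · rw [Function.update_of_ne (by omega), Function.update_self]
  · rw [Function.update_of_ne (by omega), Function.update_of_ne (by omega)]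

/-- Move the handle `m + 1` to the right to the place `m + u`. -/
theorem op_right {m k u : ℕ} (h1 : 0 < u) (hu : u < k) (y : ℕ → Q × Q) :
    ∃ z, Go m (m + k) y z ∧ z m = y m ∧ ∀ l, m < l → l ≤ m + (u - 1) → z l = y (l + 1) := by
  obtain ⟨z, h2, h3⟩ := go_right y (m + 1) (u - 1)
  exact ⟨z, h2.mono (by omega) (by omega), h2.out (Or.inl (by omega)),
    fun l h4 h5 => h3 l (by omega) (by omega)⟩

theorem lef_congr {x y : ℕ → Q × Q} {a i c : ℕ} (hai : a ≤ i) (hic : i ≤ c)
    (h : ∀ l, a ≤ l → l ≤ c → x l = y l) : ∀ l, a ≤ l → l ≤ c → lef x a i l = lef y a i l := by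
  intro l h1 h2
  unfold lef
  rw [h i hai hic, h l h1 h2]
  by_cases h3 : l = a
  · rw [if_pos h3, if_pos h3]
  · rw [if_neg h3, if_neg h3]
    by_cases h4 : a < l ∧ l ≤ i
    · rw [if_pos h4, if_pos h4, h (l - 1) (by omega) (by omega)]
    · rw [if_neg h4, if_neg h4]

/-! ### Sets of points -/

variable {Ω : Type} [MulAction Q Ω] [Finite Ω]

theorem mem_stab_of_maps {R : Set Ω} {q : Q} (h : ∀ r ∈ R, q • r ∈ R) :
    q ∈ MulAction.stabilizer Q R := by
  rw [MulAction.mem_stabilizer_iff]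
  apply Set.eq_of_subset_of_ncard_le
  · rintro _ ⟨r, hr, rfl⟩
    exact h r hr
  · have : (q • R).ncard = R.ncard := Set.ncard_image_of_injective R (MulAction.injective q)
    rw [this]
  · exact R.toFinite

theorem exists_new {R : Set Ω} {p : Q × Q} (h : ¬ In (MulAction.stabilizer Q R) p) :
    ∃ f : Q × Q → Q × Q, (f = rt ∨ f = fun p => rt (rt p)) ∧
      ∃ r ∈ R, (tv (f p))⁻¹ • r ∉ R := by
  by_contra hc
  push Not at hc
  apply h
  constructor
  · have h1 : p.1⁻¹ ∈ MulAction.stabilizer Q R := mem_stab_of_maps fun r hr => by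
      have h2 := hc rt (Or.inl rfl) r hr
      rwa [tv_rt] at h2
    exact (Subgroup.inv_mem_iff _).1 h1
  · apply mem_stab_of_maps
    intro r hr
    have h2 := hc _ (Or.inr rfl) r hr
    rwa [tv_rt2, inv_inv] at h2

/-- For every point of `R` there is a system with the same handles `m < l ≤ m + u`, whose handle `m`
takes `ω` to this point. -/
def Gd (ω : Ω) (m k : ℕ) (x : ℕ → Q × Q) (R : Set Ω) (u : ℕ) (τ : ℕ → Q × Q) : Prop :=
  ∀ r ∈ R, ∃ y, Go m (m + k) x y ∧ (y m).1 = (x m).1 ∧ (y m).2 • ω = r ∧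
    ∀ l, m < l → l ≤ m + u → y l = τ l

theorem gd_step {ω : Ω} {m k : ℕ} {x : ℕ → Q × Q} {R : Set Ω} {u : ℕ} {τ : ℕ → Q × Q}
    (h : Gd ω m k x R u τ) (hu : u < k) {i : ℕ} (hmi : m < i) (hiu : i ≤ m + u)
    {f : Q × Q → Q × Q} (hf : f = rt ∨ f = fun p => rt (rt p)) {r₀ : Ω} (hr : r₀ ∈ R) :
    Gd ω m k x (insert ((tv (f (τ i)))⁻¹ • r₀) R) (u - 1) fun l => lef τ (m + 1) i (l + 1) := by
  rintro r (rfl | hrR)
  · obtain ⟨y, h1, h2, h3, h4⟩ := h r₀ hr
    obtain ⟨z, g1, g2, g3, g4⟩ := op_zero hmi hiu hu hf y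
    obtain ⟨w, f1, f2, f3⟩ := op_slide (m := m) (k := k) (by omega) z
    obtain ⟨v, e1, e2, e3⟩ := op_right (m := m) (by omega : 0 < u) hu w
    refine ⟨v, ((h1.trans g1).trans f1).trans e1, ?_, ?_, fun l hl1 hl2 => ?_⟩
    · rw [e2, f2, g2, h2]
    · rw [e2, f2, g2, g3, h4 i hmi hiu]
      show ((tv (f (τ i)))⁻¹ * (y m).2) • ω = _
      rw [mul_smul, h3]
    · rw [e3 l hl1 hl2, f3 _ (by omega), g4 _ (by omega)]
      exact lef_congr (c := m + u) (by omega) hiu (fun l h5 h6 => h4 l (by omega) h6) _ (by omega)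
        (by omega)
  · obtain ⟨y, h1, h2, h3, h4⟩ := h r hrR
    obtain ⟨z, g1, g2, g3, g4⟩ := op_zero hmi hiu hu hf y
    obtain ⟨v, e1, e2, e3⟩ := op_right (m := m) (by omega : 0 < u) hu z
    refine ⟨v, (h1.trans g1).trans e1, ?_, ?_, fun l hl1 hl2 => ?_⟩
    · rw [e2, g2, h2]
    · rw [e2, g2, h3]
    · rw [e3 l hl1 hl2, g4 _ (by omega)]
      exact lef_congr (c := m + u) (by omega) hiu (fun l h5 h6 => h4 l (by omega) h6) _ (by omega)
        (by omega)

theorem st_Grow : St_Grow := by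
  intro Q _ Ω _ _ ω P m k x hk hP
  have key : ∀ (u : ℕ) (R : Set Ω) (τ : ℕ → Q × Q), u < k → Gd ω m k x R u τ → R.Nonempty →
      k ≤ R.ncard + u →
      (∃ y, Go m (m + k) x y ∧ (y m).1 = (x m).1 ∧ (y m).2 • ω = ω) ∨
      ∃ (R : Set Ω) (u : ℕ) (y : ℕ → Q × Q), u < k ∧ Go m (m + k) x y ∧
        R ⊆ MulAction.orbit P ω ∧ ω ∉ R ∧ k ≤ R.ncard + u ∧
        ∀ l, m < l → l ≤ m + u → In (MulAction.stabilizer Q R) (y l) := by
    intro u
    induction u with
    | zero =>
      intro R τ hu hG hne hc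
      by_cases hω : ω ∈ R
      · obtain ⟨y, h1, h2, h3, -⟩ := hG ω hω
        exact Or.inl ⟨y, h1, h2, h3⟩
      · obtain ⟨r, hr⟩ := hne
        obtain ⟨y, h1, h2, h3, h4⟩ := hG r hr
        refine Or.inr ⟨R, 0, y, hu, h1, ?_, hω, hc, fun l hl1 hl2 => by omega⟩
        intro s hs
        obtain ⟨z, g1, g2, g3, -⟩ := hG s hs
        have h5 := g1.inn (hi := m + k) (lo := m) hP m le_rfl (by omega)
        exact ⟨⟨(z m).2, h5.2⟩, g3⟩
    | succ u ih =>
      intro R τ hu hG hne hc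
      by_cases hω : ω ∈ R
      · obtain ⟨y, h1, h2, h3, -⟩ := hG ω hω
        exact Or.inl ⟨y, h1, h2, h3⟩
      · by_cases hall : ∀ l, m < l → l ≤ m + (u + 1) → In (MulAction.stabilizer Q R) (τ l)
        · obtain ⟨r, hr⟩ := hne
          obtain ⟨y, h1, h2, h3, h4⟩ := hG r hr
          refine Or.inr ⟨R, u + 1, y, hu, h1, ?_, hω, hc, fun l hl1 hl2 => ?_⟩
          · intro s hs
            obtain ⟨z, g1, g2, g3, -⟩ := hG s hs
            have h5 := g1.inn (hi := m + k) (lo := m) hP m le_rfl (by omega)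
            exact ⟨⟨(z m).2, h5.2⟩, g3⟩
          · rw [h4 l hl1 hl2]
            exact hall l hl1 hl2
        · push Not at hall
          obtain ⟨i, hi1, hi2, hi3⟩ := hall
          obtain ⟨f, hf, r₀, hr₀, hnew⟩ := exists_new hi3
          have h1 := gd_step hG hu hi1 hi2 hf hr₀
          rw [Nat.add_sub_cancel] at h1
          refine ih _ _ (by omega) h1 ⟨_, Set.mem_insert _ _⟩ ?_
          rw [Set.ncard_insert_of_notMem hnew R.toFinite]
          omega
  refine key (k - 1) {(x m).2 • ω} x (by omega) ?_ ⟨_, rfl⟩ ?_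
  · rintro r rfl
    exact ⟨x, Go.refl x, rfl, rfl, fun _ _ _ => rfl⟩
  · rw [Set.ncard_singleton]
    omega

end Pool.Agent.PWX
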