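import Pool.Agent.PWX.St

/-!
# Killing handles in subgroups of small index: the normal core of a subgroup of index `d`
-/

namespace Pool.Agent.PWX

open Pool.Agent.PW Pool.Agent.PWM Pool.Agent.PWB

variable {G : Type} [Group G]

/-- The pointwise stabiliser of the points `e j`, `j < i`. -/
def ptst {Ω : Type} [MulAction G Ω] {d : ℕ} (e : Fin d → Ω) (i : ℕ) : Subgroup G where
  carrier := {x | ∀ j : Fin d, (j : ℕ) < i → x • e j = e j}
  one_mem' := fun j _ => one_smul _ _
  mul_mem' := by
    intro x y hx hy j hj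
    rw [mul_smul, hy j hj, hx j hj]
  inv_mem' := by
    intro x hx j hj
    rw [inv_smul_eq_iff, hx j hj]

theorem ptst_succ {Ω : Type} [MulAction G Ω] {d : ℕ} (e : Fin d → Ω) {i : ℕ} (hi : i < d) :
    ptst (G := G) e (i + 1) = MulAction.stabilizer G (e ⟨i, hi⟩) ⊓ ptst e i := by
  ext x
  constructor
  · intro h
    exact ⟨MulAction.mem_stabilizer_iff.2 (h ⟨i, hi⟩ (Nat.lt_succ_self i)),
      fun j hj => h j (by omega)⟩
  · rintro ⟨h1, h2⟩ j hj
    by_cases e1 : (j : ℕ) = i
    · have e2 : j = ⟨i, hi⟩ := Fin.ext e1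
      rw [e2]
      exact MulAction.mem_stabilizer_iff.1 h1
    · exact h2 j (by omega)

theorem ptst_relIndex [Finite G] {Ω : Type} [MulAction G Ω] {d : ℕ} (e : Fin d ≃ Ω) {i : ℕ}
    (hi : i < d) : (ptst (G := G) e (i + 1)).relIndex (ptst e i) ≤ d - i := by
  have hfin : Finite Ω := Finite.of_equiv _ e
  rw [ptst_succ _ hi, Subgroup.inf_relIndex_right]
  have e1 : (MulAction.stabilizer G (e ⟨i, hi⟩)).subgroupOf (ptst (G := G) e i) =
      MulAction.stabilizer (ptst (G := G) e i) (e ⟨i, hi⟩) := by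
    ext x
    rfl
  rw [Subgroup.relIndex, e1, MulAction.index_stabilizer]
  have h1 : MulAction.orbit (ptst (G := G) e i) (e ⟨i, hi⟩) ⊆
      e '' {j : Fin d | i ≤ (j : ℕ)} := by
    rintro _ ⟨⟨q, hq⟩, rfl⟩
    obtain ⟨j, hj⟩ := e.surjective (q • e ⟨i, hi⟩)
    refine ⟨j, ?_, hj⟩
    by_contra hlt
    have hlt' : (j : ℕ) < i := by
      simpa using hlt
    have h2 := hq j hlt'
    rw [hj] at h2
    have h3 : q • e ⟨i, hi⟩ = e ⟨i, hi⟩ := smul_left_cancel q h2
    rw [h3] at hj
    have h4 := e.injective hj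
    rw [h4] at hlt'
    exact lt_irrefl _ hlt'
  calc _ ≤ (e '' {j : Fin d | i ≤ (j : ℕ)}).ncard := Set.ncard_le_ncard h1 (Set.toFinite _)
    _ = ({j : Fin d | i ≤ (j : ℕ)} : Set (Fin d)).ncard :=
      Set.ncard_image_of_injective _ e.injective
    _ = d - i := by
      have e2 : ({j : Fin d | i ≤ (j : ℕ)} : Set (Fin d)) = (Finset.Ici (⟨i, hi⟩ : Fin d) : Set _) := by
        ext j
        simp [Fin.le_def]
      rw [e2, Set.ncard_coe_finset, Fin.card_Ici]

theorem st_Perm : St_Perm := by
  intro G _ _ H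
  have hfin : Finite (G ⧸ H) := inferInstance
  obtain ⟨d, hd⟩ : ∃ d, d = H.index := ⟨_, rfl⟩
  have hcard : Nat.card (G ⧸ H) = d := by
    rw [hd]
    rfl
  have e : Fin d ≃ G ⧸ H := (Finite.equivFinOfCardEq hcard).symm
  have key : ∀ i, i ≤ d → ∃ t, 2 * t + (d - i) * (d - i - 1) ≤ d * (d - 1) ∧
      Cost2 G t (ptst e i) := by
    intro i
    induction i with
    | zero =>
      intro _
      refine ⟨0, by simp, ?_⟩
      have e0 : ptst (G := G) e 0 = ⊤ := by
        rw [eq_top_iff]
        intro x _ j hj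
        exact absurd hj (Nat.not_lt_zero _)
      rw [e0]
      exact Cost2.top
    | succ i ih =>
      intro hi
      obtain ⟨t, h1, h2⟩ := ih (by omega)
      have h3 := ptst_relIndex (G := G) e (i := i) (by omega)
      have h4 : (ptst (G := G) e (i + 1)).relIndex (ptst e i) ≠ 0 :=
        Subgroup.index_ne_zero_of_finite
      obtain ⟨r, hr⟩ := Nat.exists_eq_succ_of_ne_zero h4
      refine ⟨t + r, ?_, Cost2.index h2 ?_ hr⟩
      · rw [hr] at h3
        obtain ⟨c, hc⟩ : ∃ c, d - i = c + 1 := ⟨d - i - 1, by omega⟩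
        have hc2 : d - (i + 1) = c := by omega
        rw [hc2]
        rw [hc, Nat.add_sub_cancel] at h1
        have hrc : r ≤ c := by omega
        have h5 : c * (c - 1) + 2 * c = (c + 1) * c := by
          cases c with
          | zero => rfl
          | succ c =>
            rw [Nat.add_sub_cancel]
            ring
        omega
      · intro x hx j hj
        exact hx j (by omega)
  obtain ⟨t, h1, h2⟩ := key d le_rfl
  have e1 : ptst (G := G) e d = H.normalCore := by
    rw [Subgroup.normalCore_eq_ker]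
    ext x
    rw [MonoidHom.mem_ker]
    constructor
    · intro h
      apply Equiv.ext
      intro q
      obtain ⟨j, rfl⟩ := e.surjective q
      exact h j j.2
    · intro h j _
      have h5 := congrArg (fun f : Equiv.Perm (G ⧸ H) => f (e j)) h
      exact h5
  rw [e1] at h2
  refine ⟨t, ?_, h2⟩
  rw [← hd]
  omega

end Pool.Agent.PWX
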